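import Pool.Agent.W203.WS.Stm

/-!
# The Fourier identity for the weighted count and its expected value
-/

set_option autoImplicit false

open MeasureTheory Finset

namespace Pool.Agent.W659.WS
open Pool.Agent.W203.WS

lemma e_add (x y : ℝ) : e (x + y) = e x * e y := by
  unfold e; rw [← Complex.exp_add]; congr 1; push_cast; ring

lemma norm_e (x : ℝ) : ‖e x‖ = 1 := by
  unfold e
  rw [show (2 * (Real.pi : ℂ) * Complex.I * (x : ℂ)) = ((2 * Real.pi * x : ℝ) : ℂ) * Complex.I by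
    push_cast; ring]
  exact Complex.norm_exp_ofReal_mul_I _

lemma cont_e : Continuous e := by unfold e; fun_prop

lemma e_sum {ι : Type*} (s : Finset ι) (f : ι → ℝ) : e (∑ i ∈ s, f i) = ∏ i ∈ s, e (f i) := by
  unfold e; rw [← Complex.exp_sum]; congr 1; push_cast; rw [Finset.mul_sum]

lemma Kh_nonneg (ε t : ℝ) (hε : 0 < ε) : 0 ≤ Kh ε t := by unfold Kh; positivity

lemma Kh_cont (ε : ℝ) : Continuous (Kh ε) := by unfold Kh; fun_prop

lemma Kh_int (ε : ℝ) (hε : 0 < ε) : Integrable (Kh ε) := by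
  unfold Kh
  have h := (integrable_exp_neg_mul_sq (b := Real.pi * ε ^ 2) (by positivity)).const_mul ε
  refine h.congr (Filter.Eventually.of_forall fun t => ?_)
  simp only
  congr 2; ring

lemma kr_eq (ε x : ℝ) (hε : 0 < ε) : (Kr ε x : ℂ) = ∫ t : ℝ, (Kh ε t : ℂ) * e (t * x) := by
  have hb : 0 < ((Real.pi * ε ^ 2 : ℝ) : ℂ).re := by rw [Complex.ofReal_re]; positivity
  have h := fourierIntegral_gaussian hb (((2 * Real.pi * x : ℝ)) : ℂ)
  have h1 : ∀ t : ℝ, (Kh ε t : ℂ) * e (t * x) = (ε : ℂ) *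
      (Complex.exp (Complex.I * ((2 * Real.pi * x : ℝ) : ℂ) * t) *
        Complex.exp (-((Real.pi * ε ^ 2 : ℝ) : ℂ) * (t : ℂ) ^ 2)) := by
    intro t
    unfold Kh e
    push_cast
    rw [mul_assoc, mul_comm (Complex.exp (-(Real.pi : ℂ) * ((ε : ℂ) * t) ^ 2))]
    congr 2
    · congr 1; ring
    · congr 1; ring
  simp_rw [h1]
  rw [integral_const_mul, h]
  have h2 : ((Real.pi : ℂ) / ((Real.pi * ε ^ 2 : ℝ) : ℂ)) ^ (1 / 2 : ℂ) = ((1 / ε : ℝ) : ℂ) := by
    have h3 : ((Real.pi : ℂ) / ((Real.pi * ε ^ 2 : ℝ) : ℂ)) = (((1 / ε) ^ 2 : ℝ) : ℂ) := by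
      have hp : (Real.pi : ℂ) ≠ 0 := by exact_mod_cast Real.pi_ne_zero
      have he : (ε : ℂ) ≠ 0 := by exact_mod_cast hε.ne'
      push_cast
      field_simp
    rw [h3, show (1 / 2 : ℂ) = ((1 / 2 : ℝ) : ℂ) by push_cast; rfl,
      ← Complex.ofReal_cpow (by positivity), ← Real.sqrt_eq_rpow, Real.sqrt_sq (by positivity)]
  rw [h2]
  unfold Kr
  have he : (ε : ℂ) ≠ 0 := by exact_mod_cast hε.ne'
  have hp : (Real.pi : ℂ) ≠ 0 := by exact_mod_cast Real.pi_ne_zero
  push_cast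
  rw [← mul_assoc, mul_one_div_cancel he, one_mul]
  congr 1
  field_simp
  ring

/-- the frequency side of one phase -/
lemma phase (k s : ℕ) (t M : ℝ) (u : Fin s → ℝ) :
    e (t * ((∑ i, (u i) ^ k) - M)) = e (-(t * M)) * ∏ i, e (t * (u i) ^ k) := by
  rw [← e_sum, ← e_add, ← Finset.mul_sum]
  congr 1; ring

lemma int_bdd (ε : ℝ) (hε : 0 < ε) (g : ℝ → ℂ) (hg : Continuous g) (C : ℝ)
    (hC : ∀ t, ‖g t‖ ≤ C) : Integrable (fun t => (Kh ε t : ℂ) * g t) := by
  refine Integrable.mono' ((Kh_int ε hε).mul_const C) ?_ (Filter.Eventually.of_forall fun t => ?_)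
  · exact ((Complex.continuous_ofReal.comp (Kh_cont ε)).mul hg).aestronglyMeasurable
  · rw [norm_mul, Complex.norm_real, Real.norm_of_nonneg (Kh_nonneg ε t hε)]
    exact mul_le_mul_of_nonneg_left (hC t) (Kh_nonneg ε t hε)

lemma rr_eq (k s P : ℕ) (ε M : ℝ) (θ : Fin s → ℝ) (hε : 0 < ε) :
    (rr k s P ε M θ : ℂ) =
      ∫ t : ℝ, (Kh ε t : ℂ) * (e (-(t * M)) * ∏ i, S k P t (θ i)) := by
  unfold rr
  push_cast
  simp_rw [kr_eq _ _ hε]
  rw [← integral_finsetSum]
  · refine integral_congr_ae (Filter.Eventually.of_forall fun t => ?_)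
    simp only
    rw [← Finset.mul_sum]
    congr 1
    unfold S
    rw [Finset.prod_univ_sum, Finset.mul_sum]
    refine Finset.sum_congr rfl fun x _ => ?_
    exact phase k s t M (fun i => (x i : ℝ) + θ i)
  · intro x _
    refine int_bdd ε hε _ ?_ 1 fun t => (norm_e _).le
    exact cont_e.comp (by fun_prop)

lemma J1_eq (k P : ℕ) (t : ℝ) :
    J1 k P t = ∫ u in Set.Icc (P : ℝ) (4 * P), e (t * u ^ k) := by
  unfold J1
  rw [intervalIntegral.integral_of_le (by
    have : (0 : ℝ) ≤ P := Nat.cast_nonneg P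
    linarith), integral_Icc_eq_integral_Ioc]

lemma Jm_eq (k s P : ℕ) (ε M : ℝ) (hε : 0 < ε) :
    (Jm k s P ε M : ℂ) = ∫ t : ℝ, (Kh ε t : ℂ) * (e (-(t * M)) * J1 k P t ^ s) ∧
    Integrable (fun t : ℝ => (Kh ε t : ℂ) * (e (-(t * M)) * J1 k P t ^ s)) := by
  set μ : Measure (Fin s → ℝ) :=
    volume.restrict (Set.pi Set.univ (fun _ : Fin s => Set.Icc (P : ℝ) (4 * P))) with hμ
  have hμ' : μ = Measure.pi (fun _ : Fin s => volume.restrict (Set.Icc (P : ℝ) (4 * P))) := by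
    rw [hμ, volume_pi, Measure.restrict_pi_pi]
  have : IsFiniteMeasure μ := by
    rw [hμ']; infer_instance
  have hin : ∀ t : ℝ, ∫ u, (Kh ε t : ℂ) * e (t * ((∑ i, (u i) ^ k) - M)) ∂μ =
      (Kh ε t : ℂ) * (e (-(t * M)) * J1 k P t ^ s) := by
    intro t
    simp_rw [phase]
    rw [integral_const_mul, integral_const_mul, hμ', J1_eq]
    congr 2
    have := integral_fintype_prod_eq_pow (ι := Fin s) (𝕜 := ℂ)
      (μ := volume.restrict (Set.Icc (P : ℝ) (4 * P))) (fun u : ℝ => e (t * u ^ k))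
    rw [this, Fintype.card_fin]
  have hint : Integrable (Function.uncurry fun (u : Fin s → ℝ) (t : ℝ) =>
      (Kh ε t : ℂ) * e (t * ((∑ i, (u i) ^ k) - M))) (μ.prod volume) := by
    refine Integrable.mono' ((Kh_int ε hε).comp_snd μ) ?_ (Filter.Eventually.of_forall fun z => ?_)
    · refine Continuous.aestronglyMeasurable ?_
      have h1 : Continuous fun z : (Fin s → ℝ) × ℝ => (Kh ε z.2 : ℂ) :=
        Complex.continuous_ofReal.comp ((Kh_cont ε).comp continuous_snd)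
      have h2 : Continuous fun z : (Fin s → ℝ) × ℝ => e (z.2 * ((∑ i, (z.1 i) ^ k) - M)) :=
        cont_e.comp (by fun_prop)
      exact h1.mul h2
    · simp only [Function.uncurry]
      rw [norm_mul, Complex.norm_real, Real.norm_of_nonneg (Kh_nonneg ε z.2 hε), norm_e, mul_one]
  have hJ : (Jm k s P ε M : ℂ) = ∫ u, (Kr ε ((∑ i, (u i) ^ k) - M) : ℂ) ∂μ := by
    unfold Jm
    exact (integral_ofReal (μ := μ)).symm
  refine ⟨?_, ?_⟩
  · rw [hJ]
    simp_rw [kr_eq _ _ hε]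
    rw [integral_integral_swap hint]
    exact integral_congr_ae (Filter.Eventually.of_forall fun t => hin t)
  · exact (hint.integral_prod_right).congr (Filter.Eventually.of_forall fun t => hin t)

theorem t_ID : S_ID := by
  intro k s P ε M θ hε
  have hS : Continuous fun t : ℝ => e (-(t * M)) * ∏ i, S k P t (θ i) := by
    refine (cont_e.comp (by fun_prop)).mul (continuous_finsetProd _ fun i _ => ?_)
    unfold S
    exact continuous_finsetSum _ fun x _ => cont_e.comp (by fun_prop)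
  have hSn : ∀ t : ℝ, ‖e (-(t * M)) * ∏ i, S k P t (θ i)‖ ≤ ∏ _i : Fin s, ((Ico P (4 * P)).card : ℝ) := by
    intro t
    rw [norm_mul, norm_e, one_mul, norm_prod]
    refine Finset.prod_le_prod (fun i _ => norm_nonneg _) fun i _ => ?_
    unfold S
    refine (norm_sum_le _ _).trans ?_
    simp [norm_e]
  have hi1 := int_bdd ε hε _ hS _ hSn
  obtain ⟨hJ, hi2⟩ := Jm_eq k s P ε M hε
  have hdiff : ((rr k s P ε M θ - Jm k s P ε M : ℝ) : ℂ) =
      ∫ t : ℝ, (Kh ε t : ℂ) * (e (-(t * M)) * ((∏ i, S k P t (θ i)) - J1 k P t ^ s)) := by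
    push_cast
    rw [rr_eq k s P ε M θ hε, hJ, ← integral_sub hi1 hi2]
    refine integral_congr_ae (Filter.Eventually.of_forall fun t => ?_)
    simp only
    ring
  have h1 : |rr k s P ε M θ - Jm k s P ε M| = ‖((rr k s P ε M θ - Jm k s P ε M : ℝ) : ℂ)‖ := by
    rw [Complex.norm_real, Real.norm_eq_abs]
  rw [h1, hdiff]
  refine (norm_integral_le_integral_norm _).trans (le_of_eq ?_)
  unfold Er
  refine integral_congr_ae (Filter.Eventually.of_forall fun t => ?_)
  simp only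
  rw [norm_mul, norm_mul, norm_e, one_mul, Complex.norm_real,
    Real.norm_of_nonneg (Kh_nonneg ε t hε)]

end Pool.Agent.W659.WS
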